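import Pool.Agent.Helper137_QC.D

namespace Pool.Agent.Results.MP_49c203_an.LocallyUniformRate

/-- Let `f : E → F` be a homeomorphism between real normed spaces (for instance Hilbert spaces) of
arbitrary dimension.  Suppose that the metric distortion tends to `1` faster than `r`, near every
point: for every `x₀` and `η > 0` there is `δ > 0` such that for all `x` within `δ` of `x₀` and all
`r < δ` the distances from `f x` to the images of two points of the sphere of radius `r` around `x`
agree up to the factor `1 + η r`, i.e. `L_f(x, r) ≤ (1 + η r) l_f(x, r)`.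
Then `f` is a similarity. -/
theorem result {E F : Type*} [NormedAddCommGroup E] [NormedSpace ℝ E]
    [NormedAddCommGroup F] [NormedSpace ℝ F] (f : E ≃ₜ F)
    (h : ∀ x₀ : E, ∀ η : ℝ, 0 < η → ∃ δ : ℝ, 0 < δ ∧
      ∀ x : E, ‖x - x₀‖ < δ → ∀ y z : E, ‖y - x‖ = ‖z - x‖ → ‖y - x‖ < δ →
        ‖f y - f x‖ ≤ (1 + η * ‖y - x‖) * ‖f z - f x‖) :
    ∃ c : ℝ, 0 < c ∧ ∀ a b : E, ‖f a - f b‖ = c * ‖a - b‖ :=
  Pool.Agent.Helper137_QC.main f h

end Pool.Agent.Results.MP_49c203_an.LocallyUniformRate
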