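import Pool.Agent.Helper137_QC.K5

namespace Pool.Agent.Results.MP_49c203_an.PointwiseRate

/-- Let `f : E → F` be a homeomorphism of a real Hilbert space `E` onto a real normed space `F`
(for instance onto a Hilbert space), of arbitrary dimension.  Suppose that at every point `x` the
distortion is `1 + o(r)`: for every `η > 0` there is `δ(x, η) > 0`, with no uniformity in `x`, such
that `‖f y - f x‖ ≤ (1 + η r) ‖f z - f x‖` whenever `‖y - x‖ = ‖z - x‖ = r < δ(x, η)`, that is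
`L_f(x, r) ≤ (1 + η r) l_f(x, r)`.  Then `f` is a similarity. -/
theorem result {E F : Type*} [NormedAddCommGroup E] [InnerProductSpace ℝ E] [CompleteSpace E]
    [NormedAddCommGroup F] [NormedSpace ℝ F] (f : E ≃ₜ F)
    (h : ∀ x : E, ∀ η : ℝ, 0 < η → ∃ δ : ℝ, 0 < δ ∧
      ∀ y z : E, ‖y - x‖ = ‖z - x‖ → ‖y - x‖ < δ →
        ‖f y - f x‖ ≤ (1 + η * ‖y - x‖) * ‖f z - f x‖) :
    ∃ c : ℝ, 0 < c ∧ ∀ a b : E, ‖f a - f b‖ = c * ‖a - b‖ :=
  Pool.Agent.Helper137_QC.main_littleO f h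

end Pool.Agent.Results.MP_49c203_an.PointwiseRate
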