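import Pool.Agent.Helper137_QC.X2

namespace Pool.Agent.Results.MP_49c203_an.PointwiseRoundSpheres

/-- Let `f : E → F` be a homeomorphism between real normed spaces, `E` complete (for instance
Hilbert spaces), of arbitrary dimension.  Suppose that for every point `x` there is a radius
`δ(x) > 0`, with no uniformity in `x`, such that `f` maps every sphere around `x` of radius
`r < δ(x)` into a sphere around `f x`, i.e. `L_f(x, r) = l_f(x, r)` for `r < δ(x)`.
Then `f` is a similarity. -/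
theorem result {E F : Type*} [NormedAddCommGroup E] [NormedSpace ℝ E] [CompleteSpace E]
    [NormedAddCommGroup F] [NormedSpace ℝ F] (f : E ≃ₜ F)
    (h : ∀ x : E, ∃ δ : ℝ, 0 < δ ∧ ∀ y z : E, ‖y - x‖ = ‖z - x‖ → ‖y - x‖ < δ →
      ‖f y - f x‖ = ‖f z - f x‖) :
    ∃ c : ℝ, 0 < c ∧ ∀ a b : E, ‖f a - f b‖ = c * ‖a - b‖ := by
  apply Pool.Agent.Helper137_QC.main_pointwise f
  intro x
  obtain ⟨δ, hδ, hx⟩ := h x
  refine ⟨δ, hδ, fun y z hyz hy => ?_⟩
  rw [hx y z hyz hy, zero_mul, add_zero, one_mul]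

end Pool.Agent.Results.MP_49c203_an.PointwiseRoundSpheres
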